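import Pool.Agent.RF66.Crit
import Pool.Agent.AST.Main

/-!
Law R (helper60): for `g` with `|V_g|` largest among all elements `≠ 1`, two elements outside
`V_g` which commute have the same value with `g`. It gives the elementary type conjecture for
`-1 = 1` (by Theorem A* on isolated elements).
-/

set_option autoImplicit false

namespace Pool.Agent.RF66

open QS
open Pool.Agent.AST (Isolated)
open Pool.Agent.MXR66 (va)

/-- an isolated element in every least structure which is not of elementary type -/
theorem etc_of_isolated (h : ∀ S : QStruct, Finite S.G → S.neg = 1 → ¬ ElemType S →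
    (∀ T : QStruct, Finite T.G → T.neg = 1 → Nat.card T.G < Nat.card S.G → ElemType T) →
    ∃ x, Isolated S x) :
    ∀ S : QStruct, Finite S.G → S.neg = 1 → ElemType S := by
  have key : ∀ (n : ℕ) (S : QStruct), Finite S.G → Nat.card S.G = n → S.neg = 1 →
      ElemType S := by
    intro n
    induction n using Nat.strong_induction_on with
    | _ n ih =>
      intro S hf hn hneg
      by_contra hS
      have hT : ∀ T : QStruct, Finite T.G → T.neg = 1 → Nat.card T.G < Nat.card S.G →
          ElemType T := fun T hT hTn hlt => ih _ (by omega) T hT rfl hTn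
      exact hS ((AST.final AST.ASZ AST.RED).2.1 S hf hneg hT (h S hf hneg hS hT))
  exact fun S hf hneg => key _ S hf rfl hneg

/-- law R (helper60) at `g` -/
def LawR (S : QStruct) (g : S.G) : Prop :=
  ∀ s t, S.q g s ≠ S.zero → S.q g t ≠ S.zero → S.q s t = S.zero → S.q g s = S.q g t

theorem isolated_of_R {S : QStruct} {g : S.G} (hg : g ≠ 1) (h : LawR S g) : Isolated S g := by
  refine ⟨hg, fun v hv w hw => ?_⟩
  by_cases hz : S.q g w = S.zero
  · exact Or.inl hz
  · exact Or.inr ((S.qs3 _ _ _).1 (h v w hv hz hw))

/-- **law R gives the elementary type conjecture, `-1 = 1`** -/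
theorem etc_of_R (h : ∀ S : QStruct, Finite S.G → S.neg = 1 → ¬ ElemType S →
    (∀ T : QStruct, Finite T.G → T.neg = 1 → Nat.card T.G < Nat.card S.G → ElemType T) →
    ∀ g : S.G, g ≠ 1 → (∀ x, x ≠ 1 → va S x ≤ va S g) → LawR S g) :
    ∀ S : QStruct, Finite S.G → S.neg = 1 → ElemType S :=
  etc_of_isolated fun S hf hneg hS hT => by
    haveI := hf
    have hne : ∃ g : S.G, g ≠ 1 := by
      by_contra hno
      push Not at hno
      apply hS
      apply ElemType.L0
      have hs : Subsingleton S.G := ⟨fun a b => by rw [hno a, hno b]⟩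
      exact Nat.card_unique
    obtain ⟨g0, hg0⟩ := hne
    have : Nonempty {g : S.G // g ≠ 1} := ⟨⟨g0, hg0⟩⟩
    obtain ⟨⟨g, hg⟩, hmax⟩ := Finite.exists_max (fun g : {g : S.G // g ≠ 1} => va S g.1)
    exact ⟨g, isolated_of_R hg (h S hf hneg hS hT g hg fun x hx => hmax ⟨x, hx⟩)⟩

end Pool.Agent.RF66
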