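import Pool.Agent.RF66.Core
import Pool.Agent.MXR66.DoorID

/-!
Route F (helper29, helper79, helper84; typed by helper66): a least structure with `-1 = 1` which is
not of elementary type has no prime quaternion.
-/

set_option autoImplicit false
set_option linter.unusedSectionVars false

namespace Pool.Agent.RF66

open QS
open Pool.Agent.REG10 (RegE HasReg)
open Pool.Agent.ETCP

/-- transport -/
def lk (S : QStruct) (hneg : S.neg = 1) {H : Type} [CommGroup H] (ψ : S.G ≃* H) : Lk H S.Q where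
  z := S.zero
  q := fun a b => S.q (ψ.symm a) (ψ.symm b)
  two := fun a => ψ.symm.injective (by rw [map_mul, map_one, S.exp_two])
  self := fun a => by
    have := S.qs1 (ψ.symm a)
    rwa [hneg, one_mul] at this
  sym := fun a b => S.qs2 _ _
  add := fun a b d => by rw [S.qs3, map_mul]
  link := fun a b d e h => by
    obtain ⟨x, h1, h2⟩ := S.qs4 _ _ _ _ h
    exact ⟨ψ x, by rw [ψ.symm_apply_apply]; exact h1, by rw [ψ.symm_apply_apply]; exact h2⟩

section

variable {S : QStruct} [Finite S.G] (hneg : S.neg = 1)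
  (hsm : ∀ T : QStruct, Finite T.G → T.neg = 1 → Nat.card T.G < Nat.card S.G → ElemType T)

include hneg hsm

theorem hU_of (U : Subgroup S.G) (h4 : REG10.Lsub S U) (hU : U ≠ ⊤) :
    ElemType (ESL.PRODRECX.sub S hneg U h4) := by
  have hc : Nat.card U < Nat.card S.G := by
    refine lt_of_le_of_ne (Subgroup.card_le_card_group U) fun e => hU ?_
    exact Subgroup.eq_top_of_card_eq U e
  exact hsm _ (inferInstance : Finite U) rfl hc

theorem elem_of_decomp (h : (∃ T : QStruct, Iso S (ext T)) ∨ Decomp S) : ElemType S :=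
  REG10.elem_of_ed S hneg (fun U h4 hU => hU_of hneg hsm U h4 hU) h

/-- no element of rank at most one -/
theorem elem_of_low {u : S.G} (hu : u ≠ 1) {c : S.Q} (hc : c ≠ S.zero)
    (h : ∀ v, S.q u v = S.zero ∨ S.q u v = c) : ElemType S := by
  by_cases hy : ∃ y, S.q u y = c
  · rcases REG10.rk1 S hneg hc h hy with h | h | ⟨hnd, h2⟩ | ⟨U, h4, hc3, h5⟩
    · exact elem_of_decomp hneg hsm (Or.inl h)
    · exact elem_of_decomp hneg hsm (Or.inr h)
    · by_cases h8 : 8 ≤ Nat.card S.G
      · exact ElemType.loc S inferInstance h8 hnd h2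
      · exact elem_of_decomp hneg hsm (REG10.card_four S hneg h8 hu)
    · have hUt : U ≠ ⊤ := by
        rintro rfl
        rw [Subgroup.card_top] at hc3
        exact lt_irrefl _ hc3
      exact elem_of_decomp hneg hsm (h5 (hU_of hneg hsm U h4 hUt))
  · have hu0 : ∀ b, S.q u b = S.zero := fun b => (h b).resolve_right fun e => hy ⟨b, e⟩
    by_cases hg : ∃ g : S.G, g ≠ 1 ∧ g ≠ u
    · obtain ⟨g, hg1, hg2⟩ := hg
      exact elem_of_decomp hneg hsm (Or.inr (decomp_of_degenerate S hneg hu hu0 hg1 hg2))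
    · push Not at hg
      have hall : ∀ g : S.G, g = 1 ∨ g = u := fun g => by
        by_cases h1 : g = 1
        · exact Or.inl h1
        · exact Or.inr (hg g h1)
      refine ElemType.L10 S ?_ hneg fun a b => ?_
      · rw [Nat.card_eq_two_iff]
        refine ⟨1, u, Ne.symm hu, ?_⟩
        ext g
        simp only [Set.mem_insert_iff, Set.mem_singleton_iff, Set.mem_univ, iff_true]
        exact hall g
      · rcases hall a with rfl | rfl
        · rw [S.qs2, S.q_one]
        · exact hu0 b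

/-- **the door of Route F**: if the zero set together with the pairs of value `c` is the zero set
of a structure `T` of elementary type, then `S` is of elementary type -/
theorem elem_of_prime {c : S.Q} (hc : c ≠ S.zero) {T : QStruct} (φ : S.G ≃* T.G)
    (hTn : T.neg = 1)
    (hT : ∀ u v, T.q (φ u) (φ v) = T.zero ↔ (S.q u v = S.zero ∨ S.q u v = c))
    (hTE : ElemType T) : ElemType S := by
  by_contra hS
  have hlow : ∀ u : S.G, (∀ v, S.q u v = S.zero ∨ S.q u v = c) → u = 1 := fun u hu => by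
    by_contra h1
    exact hS (elem_of_low hneg hsm h1 hc hu)
  obtain ⟨ι, hι, dι, C, hC, ψ, hψ⟩ := dec_of_elem hTE hTn (fun a ha => by
    have h1 := hlow (φ.symm a) (fun v => (hT _ _).1 (by
      rw [φ.apply_symm_apply]; exact ha _))
    rw [← φ.apply_symm_apply a, h1, map_one])
  have pc : ∀ i, Pc (C i) := fun i => (hC i).some
  set Ψ : S.G ≃* ∀ i, (C i).G := φ.trans ψ with hΨ
  set L := lk S hneg Ψ with hL
  have hy : Hyp L c := by
    refine ⟨hc, fun u v => ?_⟩
    show (S.q (Ψ.symm u) (Ψ.symm v) = S.zero ∨ S.q (Ψ.symm u) (Ψ.symm v) = c) ↔ _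
    rw [← hT, hψ]
    have e1 : ∀ x, ψ (φ (Ψ.symm x)) = x := fun x => Ψ.apply_symm_apply x
    rw [e1, e1]
    rfl
  have hTC : ∀ a b : S.G, (S.q a b = S.zero ∨ S.q a b = c) ↔ TC (Ψ a) (Ψ b) := by
    intro a b
    rw [← hy.H]
    show _ ↔ (S.q (Ψ.symm (Ψ a)) (Ψ.symm (Ψ b)) = S.zero ∨ S.q (Ψ.symm (Ψ a)) (Ψ.symm (Ψ b)) = c)
    rw [Ψ.symm_apply_apply, Ψ.symm_apply_apply]
  have hreg : ¬ ∃ x, RegE S x := fun h =>
    hS (REG10.elem_of_smaller REG10.srgx S hneg ((REG10.regE_iff S).1 h) hsm)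
  -- `c ∉ Q_p` for regular `p`
  have hr : ∀ p : ∀ i, (C i).G, (∀ i, p i ∈ (pc i).R) → ∀ u, L.q p u ≠ c := by
    intro p hp u0 hu0
    apply hreg
    obtain ⟨x, rfl⟩ : ∃ x : S.G, Ψ x = p := ⟨Ψ.symm p, Ψ.apply_symm_apply p⟩
    have hu0' : S.q x (Ψ.symm u0) = c := by
      have : S.q (Ψ.symm (Ψ x)) (Ψ.symm u0) = c := hu0
      rwa [Ψ.symm_apply_apply] at this
    have hQ : ∀ β, (β = S.zero ∨ β = c) → ∃ z, S.q x z = β := by
      rintro β (rfl | rfl)
      · exact ⟨1, S.q_one x⟩
      · exact ⟨_, hu0'⟩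
    refine ⟨x, fun w v hw => ?_⟩
    have htc : TC (Ψ x) (Ψ w) := (hTC x w).1 (Or.inl hw)
    have hX : ∀ i, ∃ s : (C i).G, (C i).q (Ψ w i) (Ψ v i * s) = (C i).zero ∧
        (C i).q s (Ψ x i * Ψ w i) = (C i).zero := by
      intro i
      obtain ⟨u, hu⟩ := (pc i).reg (Ψ x i) (hp i) (Ψ w i) (Ψ v i) (htc i)
      obtain ⟨s, hs1, hs2⟩ := (C i).qs4 _ _ _ _ hu.symm
      refine ⟨s, ((C i).qs3 _ _ _).1 hs1, ?_⟩
      rw [← (C i).qs3, (C i).qs2 s, (C i).qs2 s, ← hs1, ← hs2, hu]
    choose s hs1 hs2 using hX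
    obtain ⟨y, rfl⟩ : ∃ y : S.G, Ψ y = s := ⟨Ψ.symm s, Ψ.apply_symm_apply s⟩
    have h1 : ∃ z, S.q x z = S.q w (v * y) := hQ _ ((hTC w (v * y)).2 (by
      rw [map_mul]; exact hs1))
    have h2 : ∃ z, S.q x z = S.q y (x * w) := hQ _ ((hTC y (x * w)).2 (by
      rw [map_mul]; exact hs2))
    have h3 : ∃ z, S.q x z = S.q y x := ⟨y, S.qs2 _ _⟩
    have h4 := MXR66.common_add h3 h2
    rw [← mul_assoc, S.exp_two, one_mul] at h4
    have h5 : ∃ z, S.q x z = S.q w y := by rw [S.qs2 w y]; exact h4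
    have h6 := MXR66.common_add h1 h5
    rwa [mul_assoc, S.exp_two, mul_one] at h6
  obtain ⟨i₀, ⟨t, ht⟩, -, hz⟩ := exists_comp hy pc hr (by
    obtain ⟨a, b, hab⟩ := S.surj c
    refine ⟨Ψ a, Ψ b, ?_⟩
    show S.q (Ψ.symm (Ψ a)) (Ψ.symm (Ψ b)) = c
    rw [Ψ.symm_apply_apply, Ψ.symm_apply_apply, hab])
  have hzero : ∀ a b : S.G, S.q a b = S.zero ↔
      (TC (Ψ a) (Ψ b) ∧ ga L c (e i₀ (Ψ a i₀)) (e i₀ (Ψ b i₀)) = 0) := by
    intro a b
    have hq : L.q (Ψ a) (Ψ b) = S.q a b := by
      show S.q (Ψ.symm (Ψ a)) (Ψ.symm (Ψ b)) = S.q a b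
      rw [Ψ.symm_apply_apply, Ψ.symm_apply_apply]
    have hex : TC (Ψ a) (Ψ b) →
        ga L c (Ψ a) (Ψ b) = ga L c (e i₀ (Ψ a i₀)) (e i₀ (Ψ b i₀)) := by
      intro htc
      refine expand_single hy htc i₀ i₀ fun i j hij => ?_
      by_cases h : i = j
      · subst h
        have hi : i ≠ i₀ := by
          rcases hij with h | h <;> exact h
        exact hz i hi _ _ (htc i)
      · exact kap_zero hy pc hr h _ _
    constructor
    · intro h
      have htc := (hTC a b).1 (Or.inl h)
      refine ⟨htc, ?_⟩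
      rw [← hex htc, ga_zero_iff, hq, h]
      exact hc.symm
    · rintro ⟨htc, hg⟩
      rw [← hex htc, ga_zero_iff, hq] at hg
      exact ((hTC a b).2 htc).resolve_right hg
  by_cases hj : ∃ j, j ≠ i₀
  · -- `S` decomposes
    obtain ⟨j, hj⟩ := hj
    apply hS
    apply elem_of_decomp hneg hsm
    right
    let A : Subgroup S.G :=
      { carrier := {g | ∀ k, k ≠ i₀ → Ψ g k = 1}
        one_mem' := fun k _ => by rw [map_one]; rfl
        mul_mem' := fun {a b} ha hb k hk => by
          rw [map_mul, Pi.mul_apply, ha k hk, hb k hk, mul_one]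
        inv_mem' := fun {a} ha k hk => by
          rw [map_inv, Pi.inv_apply, ha k hk, inv_one] }
    let B : Subgroup S.G :=
      { carrier := {g | Ψ g i₀ = 1}
        one_mem' := by show Ψ 1 i₀ = 1; rw [map_one]; rfl
        mul_mem' := fun {a b} ha hb => by
          show Ψ (a * b) i₀ = 1
          rw [map_mul, Pi.mul_apply, show Ψ a i₀ = 1 from ha, show Ψ b i₀ = 1 from hb, mul_one]
        inv_mem' := fun {a} ha => by
          show Ψ a⁻¹ i₀ = 1
          rw [map_inv, Pi.inv_apply, show Ψ a i₀ = 1 from ha, inv_one] }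
    have hA : ∀ g, g ∈ A ↔ ∀ k, k ≠ i₀ → Ψ g k = 1 := fun g => Iff.rfl
    have hB : ∀ g, g ∈ B ↔ Ψ g i₀ = 1 := fun g => Iff.rfl
    refine decomp_of_subgroups S hneg A B ⟨?_, ?_⟩ ?_ ?_ ?_
    · rw [Subgroup.disjoint_def]
      intro g h1 h2
      apply Ψ.injective
      rw [map_one]
      funext k
      by_cases hk : k = i₀
      · subst hk; exact h2
      · exact h1 k hk
    · rw [codisjoint_iff, eq_top_iff]
      intro g _
      rw [Subgroup.mem_sup]
      refine ⟨Ψ.symm (e i₀ (Ψ g i₀)), ?_, Ψ.symm (e i₀ (Ψ g i₀)) * g, ?_, ?_⟩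
      · intro k hk
        rw [Ψ.apply_symm_apply, e_ne hk]
      · show Ψ (Ψ.symm (e i₀ (Ψ g i₀)) * g) i₀ = 1
        rw [map_mul, Ψ.apply_symm_apply, Pi.mul_apply, e_same, (C i₀).exp_two]
      · rw [← mul_assoc, S.exp_two, one_mul]
    · refine ⟨Ψ.symm (e i₀ t), ?_, ?_⟩
      · intro k hk
        rw [Ψ.apply_symm_apply, e_ne hk]
      · intro h
        have h1 : e i₀ t = (1 : ∀ i, (C i).G) := by
          rw [← Ψ.apply_symm_apply (e i₀ t), h, map_one]
        have h2 := congrFun h1 i₀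
        rw [e_same] at h2
        apply ht
        rw [h2]
        exact (pc i₀).D.one_mem
    · obtain ⟨r, hr'⟩ := (pc j).ne
      refine ⟨Ψ.symm (e j r), ?_, ?_⟩
      · show Ψ (Ψ.symm (e j r)) i₀ = 1
        rw [Ψ.apply_symm_apply, e_ne (Ne.symm hj)]
      · intro h
        have h1 : e j r = (1 : ∀ i, (C i).G) := by
          rw [← Ψ.apply_symm_apply (e j r), h, map_one]
        have h2 := congrFun h1 j
        rw [e_same] at h2
        exact (pc j).nt r hr' h2
    · intro a ha b hb a' ha' b' hb'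
      have ha1 := (hA a).1 ha
      have ha1' := (hA a').1 ha'
      have hb1 := (hB b).1 hb
      have hb1' := (hB b').1 hb'
      rw [hzero, hzero a a', hzero b b']
      have m1 : Ψ (a * b) i₀ = Ψ a i₀ := by rw [map_mul, Pi.mul_apply, hb1, mul_one]
      have m2 : Ψ (a' * b') i₀ = Ψ a' i₀ := by rw [map_mul, Pi.mul_apply, hb1', mul_one]
      have m3 : ∀ k, k ≠ i₀ → Ψ (a * b) k = Ψ b k := fun k hk => by
        rw [map_mul, Pi.mul_apply, ha1 k hk, one_mul]
      have m4 : ∀ k, k ≠ i₀ → Ψ (a' * b') k = Ψ b' k := fun k hk => by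
        rw [map_mul, Pi.mul_apply, ha1' k hk, one_mul]
      rw [m1, m2, hb1, hb1', e_one]
      constructor
      · rintro ⟨h1, h2⟩
        refine ⟨⟨fun k => ?_, h2⟩, fun k => ?_, ga_one hy _⟩
        · by_cases hk : k = i₀
          · subst hk
            have := h1 k
            rwa [m1, m2] at this
          · rw [ha1 k hk, ha1' k hk]; exact (C k).q_one _
        · by_cases hk : k = i₀
          · subst hk
            rw [hb1, hb1']; exact (C k).q_one _
          · have := h1 k
            rwa [m3 k hk, m4 k hk] at this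
      · rintro ⟨⟨h1, h2⟩, h3, -⟩
        refine ⟨fun k => ?_, h2⟩
        by_cases hk : k = i₀
        · subst hk
          rw [m1, m2]; exact h1 k
        · rw [m3 k hk, m4 k hk]; exact h3 k
  · -- one component: `t` is rigid
    push Not at hj
    apply hreg
    refine ⟨Ψ.symm (e i₀ t), fun w v hw => ?_⟩
    have htc : TC (Ψ (Ψ.symm (e i₀ t))) (Ψ w) := (hTC _ w).1 (Or.inl hw)
    rw [Ψ.apply_symm_apply] at htc
    have h1 := htc i₀
    rw [e_same] at h1
    rcases (pc i₀).h1 t ht _ h1 with h2 | h2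
    · have : w = 1 := by
        apply Ψ.injective
        rw [map_one]
        funext k
        have hk := hj k
        subst hk
        exact h2
      refine ⟨1, ?_⟩
      rw [this, S.q_one, S.qs2, S.q_one]
    · have : w = Ψ.symm (e i₀ t) := by
        apply Ψ.injective
        rw [Ψ.apply_symm_apply]
        funext k
        have hk := hj k
        subst hk
        rw [e_same]
        exact h2
      exact ⟨v, by rw [this]⟩

end

/-- `c ≠ 0` is prime: the pairs with value `0` or `c` are the zero pairs of a quaternionic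
structure on the same group (`B / c` is linked) -/
def PrimeQ (S : QStruct) (c : S.Q) : Prop :=
  c ≠ S.zero ∧ ∃ (T : QStruct) (φ : S.G ≃* T.G), T.neg = 1 ∧
    ∀ u v, T.q (φ u) (φ v) = T.zero ↔ (S.q u v = S.zero ∨ S.q u v = c)

theorem finite_Q (S : QStruct) [Finite S.G] : Finite S.Q :=
  Finite.of_surjective (fun x : S.G × S.G => S.q x.1 x.2) fun β => by
    obtain ⟨a, b, h⟩ := S.surj β
    exact ⟨(a, b), h⟩

/-- equality of values is determined by the zero pairs -/
theorem eq_iff_zero (S : QStruct) (a b d f : S.G) : S.q a b = S.q d f ↔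
    ∃ x, S.q a (b * x) = S.zero ∧ S.q x (a * d) = S.zero ∧ S.q d (f * x) = S.zero := by
  constructor
  · intro h
    obtain ⟨x, h1, h2⟩ := S.qs4 _ _ _ _ h
    refine ⟨x, (S.qs3 _ _ _).1 h1, ?_, (S.qs3 _ _ _).1 h2⟩
    rw [← S.qs3, S.qs2 x a, S.qs2 x d, ← h1, ← h2, h]
  · rintro ⟨x, h1, h2, h3⟩
    rw [← S.qs3] at h1 h2 h3
    rw [h1, h3, S.qs2 a, S.qs2 d, h2]

theorem card_lt_of_prime {S T : QStruct} [Finite S.G] {c : S.Q} (hc : c ≠ S.zero)
    (φ : S.G ≃* T.G)
    (hT : ∀ u v, T.q (φ u) (φ v) = T.zero ↔ (S.q u v = S.zero ∨ S.q u v = c)) :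
    Nat.card T.Q < Nat.card S.Q := by
  classical
  haveI := finite_Q S
  have hw : ∀ a b d f, S.q a b = S.q d f → T.q (φ a) (φ b) = T.q (φ d) (φ f) := by
    intro a b d f h
    obtain ⟨x, h1, h2, h3⟩ := (eq_iff_zero S a b d f).1 h
    rw [eq_iff_zero]
    exact ⟨φ x, by rw [← map_mul]; exact (hT _ _).2 (Or.inl h1),
      by rw [← map_mul]; exact (hT _ _).2 (Or.inl h2),
      by rw [← map_mul]; exact (hT _ _).2 (Or.inl h3)⟩
  choose a b hab using S.surj
  let f : S.Q → T.Q := fun β => T.q (φ (a β)) (φ (b β))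
  have hf : Function.Surjective f := by
    intro β
    obtain ⟨x, y, hxy⟩ := T.surj β
    refine ⟨S.q (φ.symm x) (φ.symm y), ?_⟩
    show T.q (φ (a _)) (φ (b _)) = β
    rw [hw _ _ _ _ (hab (S.q (φ.symm x) (φ.symm y))), φ.apply_symm_apply, φ.apply_symm_apply, hxy]
  have hni : ¬ Function.Injective f := by
    intro hi
    apply hc
    apply hi
    show T.q (φ (a c)) (φ (b c)) = T.q (φ (a S.zero)) (φ (b S.zero))
    rw [(hT _ _).2 (Or.inr (hab c)), (hT _ _).2 (Or.inl (hab S.zero))]
  haveI := Fintype.ofFinite S.Q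
  haveI : Finite T.Q := Finite.of_surjective f hf
  haveI := Fintype.ofFinite T.Q
  rw [Nat.card_eq_fintype_card, Nat.card_eq_fintype_card]
  exact Fintype.card_lt_of_surjective_not_injective f hf hni

/-- **Route F**: if every least structure which is not of elementary type had a prime quaternion,
the elementary type conjecture for `-1 = 1` would hold -/
theorem etc_of_prime (h : ∀ S : QStruct, Finite S.G → S.neg = 1 → ¬ ElemType S →
    (∀ T : QStruct, Finite T.G → T.neg = 1 → Nat.card T.G < Nat.card S.G → ElemType T) →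
    ∃ c, PrimeQ S c) :
    ∀ S : QStruct, Finite S.G → S.neg = 1 → ElemType S := by
  have key : ∀ (n m : ℕ) (S : QStruct), Finite S.G → Nat.card S.G = n → Nat.card S.Q = m →
      S.neg = 1 → ElemType S := by
    intro n
    induction n using Nat.strong_induction_on with
    | _ n ihn =>
      intro m
      induction m using Nat.strong_induction_on with
      | _ m ihm =>
        intro S hf hn hm hneg
        by_contra hS
        have hsm : ∀ T : QStruct, Finite T.G → T.neg = 1 → Nat.card T.G < Nat.card S.G →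
            ElemType T := fun T hTf hTn hlt => ihn _ (by omega) _ T hTf rfl rfl hTn
        obtain ⟨c, hc, T, φ, hTn, hT⟩ := h S hf hneg hS hsm
        haveI := hf
        have hlt := card_lt_of_prime hc φ hT
        have hTE : ElemType T := ihm (Nat.card T.Q) (by omega) T (Finite.of_equiv _ φ.toEquiv)
          (by rw [← hn]; exact (Nat.card_congr φ.toEquiv).symm) rfl hTn
        exact hS (elem_of_prime hneg hsm hc φ hTn hT hTE)
  exact fun S hf hneg => key _ _ S hf rfl rfl hneg

/-- a structure which is not of elementary type, with least `|G|` and then least `|Q|`, has no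
prime quaternion -/
theorem no_prime (S : QStruct) (hf : Finite S.G) (hneg : S.neg = 1) (hS : ¬ ElemType S)
    (hsm : ∀ T : QStruct, Finite T.G → T.neg = 1 → Nat.card T.G < Nat.card S.G → ElemType T)
    (hsq : ∀ T : QStruct, Finite T.G → T.neg = 1 → Nat.card T.G = Nat.card S.G →
      Nat.card T.Q < Nat.card S.Q → ElemType T) (c : S.Q) : ¬ PrimeQ S c := by
  haveI := hf
  rintro ⟨hc, T, φ, hTn, hT⟩
  exact hS (elem_of_prime hneg hsm hc φ hTn hT (hsq T (Finite.of_equiv _ φ.toEquiv) hTn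
    (Nat.card_congr φ.toEquiv).symm (card_lt_of_prime hc φ hT)))

end Pool.Agent.RF66
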