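import Pool.Agent.RF66.Pieces

/-!
Route F (helper29, helper79, helper84; typed by helper66): the values `0, c` over a product of
pieces.
-/

set_option autoImplicit false
set_option linter.unusedSectionVars false

namespace Pool.Agent.RF66

open QS

/-- a linked map with `q(a, a) = 0` -/
structure Lk (G : Type) [CommGroup G] (Q : Type) where
  z : Q
  q : G → G → Q
  two : ∀ a : G, a * a = 1
  self : ∀ a, q a a = z
  sym : ∀ a b, q a b = q b a
  add : ∀ a b d, q a b = q a d ↔ q a (b * d) = z
  link : ∀ a b d e, q a b = q d e → ∃ x, q a b = q a x ∧ q d e = q d x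

namespace Lk

variable {G : Type} [CommGroup G] {Q : Type} (L : Lk G Q)

theorem q_one (a : G) : L.q a 1 = L.z := by
  have := (L.add a 1 1).1 rfl
  rwa [mul_one] at this

theorem one_q (a : G) : L.q 1 a = L.z := by rw [L.sym, L.q_one]

theorem zm {a b : G} (h : L.q a b = L.z) (d : G) : L.q a (b * d) = L.q a d := by
  rw [L.add, mul_assoc, L.two, mul_one, h]

end Lk

variable {ι : Type} [Fintype ι] [DecidableEq ι] {C : ι → QStruct} {Q : Type}

/-- `q = 0` in every component -/
def TC (u v : ∀ i, (C i).G) : Prop := ∀ i, (C i).q (u i) (v i) = (C i).zero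

theorem TC.symm {u v : ∀ i, (C i).G} (h : TC u v) : TC v u := fun i => by
  rw [(C i).qs2]; exact h i

theorem TC.mul {u v w : ∀ i, (C i).G} (h : TC u v) (h' : TC u w) : TC u (v * w) := fun i => by
  show (C i).q (u i) (v i * w i) = _
  rw [(C i).q_zero_mul (h i)]; exact h' i

theorem TC.one (u : ∀ i, (C i).G) : TC u 1 := fun i => (C i).q_one _

theorem one_q' (P : QStruct) (a : P.G) : P.q 1 a = P.zero := by rw [P.qs2, P.q_one]

/-- a single component -/
def e (i : ι) (a : (C i).G) : ∀ i, (C i).G := Pi.mulSingle (M := fun i => (C i).G) i a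

theorem e_same (i : ι) (a : (C i).G) : (e i a : ∀ i, (C i).G) i = a :=
  Pi.mulSingle_eq_same (M := fun i => (C i).G) i a

theorem e_ne {i k : ι} (h : k ≠ i) (a : (C i).G) : (e i a : ∀ i, (C i).G) k = 1 :=
  Pi.mulSingle_eq_of_ne (M := fun i => (C i).G) h a

theorem e_one (i : ι) : (e i 1 : ∀ i, (C i).G) = 1 :=
  Pi.mulSingle_one (M := fun i => (C i).G) i

theorem e_mul (i : ι) (a b : (C i).G) : (e i (a * b) : ∀ i, (C i).G) = e i a * e i b :=
  Pi.mulSingle_mul (f := fun i => (C i).G) i a b

theorem e_prod (u : ∀ i, (C i).G) : ∏ j, (e j (u j) : ∀ i, (C i).G) = u :=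
  Finset.univ_prod_mulSingle u

theorem TC.e_right {u v : ∀ i, (C i).G} (h : TC u v) (j : ι) : TC u (e j (v j)) := by
  intro k
  by_cases hk : k = j
  · subst hk; rw [e_same]; exact h k
  · rw [e_ne hk]; exact (C k).q_one _

theorem TC.ee {u v : ∀ i, (C i).G} (h : TC u v) (i j : ι) : TC (e i (u i)) (e j (v j)) :=
  ((h.e_right j).symm.e_right i).symm

theorem TC.of_ne {i j : ι} (hij : i ≠ j) (a : (C i).G) (b : (C j).G) :
    TC (e i a : ∀ i, (C i).G) (e j b) := by
  intro k
  by_cases hk : k = j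
  · subst hk; rw [e_ne (Ne.symm hij)]; exact one_q' _ _
  · rw [e_ne hk]; exact (C k).q_one _

theorem TC.single {i : ι} {a b : (C i).G} (h : (C i).q a b = (C i).zero) :
    TC (e i a : ∀ i, (C i).G) (e i b) := by
  intro k
  by_cases hk : k = i
  · subst hk; rw [e_same, e_same]; exact h
  · rw [e_ne hk]; exact one_q' _ _

/-- values `0` and `c` exactly on the pairs with `q = 0` in every component -/
structure Hyp (L : Lk (∀ i, (C i).G) Q) (c : Q) : Prop where
  hc : c ≠ L.z
  H : ∀ u v, (L.q u v = L.z ∨ L.q u v = c) ↔ TC u v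

open Classical in
/-- `1` if `q(u, v) = c`, otherwise `0` -/
noncomputable def ga (L : Lk (∀ i, (C i).G) Q) (c : Q) (u v : ∀ i, (C i).G) : ZMod 2 :=
  if L.q u v = c then 1 else 0

section

variable {L : Lk (∀ i, (C i).G) Q} {c : Q} (hy : Hyp L c)

theorem ga_one_iff {u v : ∀ i, (C i).G} : ga L c u v = 1 ↔ L.q u v = c := by
  unfold ga
  split_ifs with h
  · simp [h]
  · simp [h]

theorem ga_zero_iff {u v : ∀ i, (C i).G} : ga L c u v = 0 ↔ L.q u v ≠ c := by
  unfold ga
  split_ifs with h
  · simp [h]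
  · simp [h]

theorem zmod2 (x : ZMod 2) : x = 0 ∨ x = 1 := by
  revert x; decide

theorem ga_symm (u v : ∀ i, (C i).G) : ga L c u v = ga L c v u := by
  unfold ga; rw [L.sym]

include hy

theorem tc_of_c {u v : ∀ i, (C i).G} (h : L.q u v = c) : TC u v := (hy.H u v).1 (Or.inr h)

theorem tc_self (u : ∀ i, (C i).G) : TC u u := (hy.H u u).1 (Or.inl (L.self u))

theorem self_i (i : ι) (a : (C i).G) : (C i).q a a = (C i).zero := by
  have := tc_self hy (e i a) i
  rwa [e_same] at this

theorem ga_self (u : ∀ i, (C i).G) : ga L c u u = 0 := by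
  rw [ga_zero_iff, L.self]; exact hy.hc.symm

theorem ga_one (u : ∀ i, (C i).G) : ga L c u 1 = 0 := by
  rw [ga_zero_iff, L.q_one]; exact hy.hc.symm

theorem one_ga (u : ∀ i, (C i).G) : ga L c 1 u = 0 := by rw [ga_symm, ga_one hy]

theorem ga_add {u v w : ∀ i, (C i).G} (h : TC u v) (h' : TC u w) :
    ga L c u (v * w) = ga L c u v + ga L c u w := by
  have zz : ∀ {x y : ∀ i, (C i).G}, L.q x y = L.z → ga L c x y = 0 := fun h => by
    rw [ga_zero_iff, h]; exact hy.hc.symm
  rcases (hy.H u v).2 h with h1 | h1 <;> rcases (hy.H u w).2 h' with h2 | h2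
  · have e1 := zz h1
    have e2 := zz h2
    have e3 : ga L c u (v * w) = 0 := zz (by rw [L.zm h1, h2])
    rw [e1, e2, e3, add_zero]
  · have e1 := zz h1
    have e2 := ga_one_iff.2 h2
    have e3 : ga L c u (v * w) = 1 := ga_one_iff.2 (by rw [L.zm h1, h2])
    rw [e1, e2, e3, zero_add]
  · have e1 := ga_one_iff.2 h1
    have e2 := zz h2
    have e3 : ga L c u (v * w) = 1 := ga_one_iff.2 (by rw [mul_comm, L.zm h2, h1])
    rw [e1, e2, e3, add_zero]
  · have e1 := ga_one_iff.2 h1
    have e2 := ga_one_iff.2 h2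
    have e3 : ga L c u (v * w) = 0 := zz ((L.add u v w).1 (h1.trans h2.symm))
    rw [e1, e2, e3]
    decide

theorem ga_add' {u v w : ∀ i, (C i).G} (h : TC v u) (h' : TC w u) :
    ga L c (v * w) u = ga L c v u + ga L c w u := by
  rw [ga_symm, ga_add hy h.symm h'.symm, ga_symm u v, ga_symm u w]

theorem ga_prod {u : ∀ i, (C i).G} {w : ι → ∀ i, (C i).G} (h : ∀ j, TC u (w j)) (s : Finset ι) :
    TC u (∏ j ∈ s, w j) ∧ ga L c u (∏ j ∈ s, w j) = ∑ j ∈ s, ga L c u (w j) := by
  induction s using Finset.induction_on with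
  | empty => simp only [Finset.prod_empty, Finset.sum_empty]; exact ⟨TC.one u, ga_one hy u⟩
  | insert a s ha ih =>
    rw [Finset.prod_insert ha, Finset.sum_insert ha]
    exact ⟨(h a).mul ih.1, by rw [ga_add hy (h a) ih.1, ih.2]⟩

theorem expand_right {u v : ∀ i, (C i).G} (h : TC u v) :
    ga L c u v = ∑ j, ga L c u (e j (v j)) := by
  have h1 := (ga_prod hy (fun j => h.e_right j) Finset.univ).2
  rwa [e_prod] at h1

theorem expand {u v : ∀ i, (C i).G} (h : TC u v) :
    ga L c u v = ∑ j, ∑ i, ga L c (e i (u i)) (e j (v j)) := by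
  rw [expand_right hy h]
  refine Finset.sum_congr rfl fun j _ => ?_
  rw [ga_symm, expand_right hy (h.e_right j).symm]
  exact Finset.sum_congr rfl fun i _ => ga_symm _ _

theorem expand_zero {u v : ∀ i, (C i).G} (h : TC u v)
    (h0 : ∀ i j, ga L c (e i (u i)) (e j (v j)) = 0) : ga L c u v = 0 := by
  rw [expand hy h]
  exact Finset.sum_eq_zero fun j _ => Finset.sum_eq_zero fun i _ => h0 i j

theorem expand_single {u v : ∀ i, (C i).G} (h : TC u v) (i₀ j₀ : ι)
    (h0 : ∀ i j, (i ≠ i₀ ∨ j ≠ j₀) → ga L c (e i (u i)) (e j (v j)) = 0) :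
    ga L c u v = ga L c (e i₀ (u i₀)) (e j₀ (v j₀)) := by
  rw [expand hy h, Finset.sum_eq_single j₀, Finset.sum_eq_single i₀]
  · exact fun i _ hi => h0 i j₀ (Or.inl hi)
  · exact fun h => absurd (Finset.mem_univ _) h
  · exact fun j _ hj => Finset.sum_eq_zero fun i _ => h0 i j (Or.inr hj)
  · exact fun h => absurd (Finset.mem_univ _) h

theorem kadd {i j : ι} (hij : i ≠ j) (a a' : (C i).G) (b : (C j).G) :
    ga L c (e i (a * a')) (e j b) = ga L c (e i a) (e j b) + ga L c (e i a') (e j b) := by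
  rw [e_mul]
  exact ga_add' hy (TC.of_ne hij a b) (TC.of_ne hij a' b)

/-- the subgroup of the `a` with `ga (e i a) (e j b) = 0` -/
def kerL {i j : ι} (hij : i ≠ j) (b : (C j).G) : Subgroup (C i).G where
  carrier := {a | ga L c (e i a) (e j b) = 0}
  one_mem' := by
    show ga L c (e i 1) (e j b) = 0
    rw [e_one i]
    exact one_ga hy _
  mul_mem' := by
    intro a a' ha ha'
    show ga L c (e i (a * a')) (e j b) = 0
    rw [kadd hy hij]
    have h1 : ga L c (e i a) (e j b) = 0 := ha
    have h2 : ga L c (e i a') (e j b) = 0 := ha'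
    rw [h1, h2, add_zero]
  inv_mem' := by
    intro a ha
    have : a⁻¹ = a := by rw [inv_eq_iff_mul_eq_one, (C i).exp_two]
    rw [this]
    exact ha

theorem mem_kerL {i j : ι} (hij : i ≠ j) (b : (C j).G) (a : (C i).G) :
    a ∈ kerL hy hij b ↔ ga L c (e i a) (e j b) = 0 := Iff.rfl

end

section

variable {L : Lk (∀ i, (C i).G) Q} {c : Q} (hy : Hyp L c) (pc : ∀ i, Pc (C i))
  (hr : ∀ p : ∀ i, (C i).G, (∀ i, p i ∈ (pc i).R) → ∀ u, L.q p u ≠ c)

include hy hr

/-- `D_i V_j = 0` for `i ≠ j` -/
theorem kD {i j : ι} (hij : i ≠ j) {a : (C i).G} (ha : a ∈ (pc i).D) (b : (C j).G) :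
    ga L c (e i a) (e j b) = 0 := by
  choose base hbase using fun k => (pc k).ne
  have h1 : ∀ r ∈ (pc i).R, ∀ r' ∈ (pc i).R, ∀ p ∈ (pc j).R,
      ga L c (e i (r * r')) (e j p) = 0 := by
    intro r hr1 r' hr1' p hp
    have key : ∀ s ∈ (pc i).R, TC (Function.update (Function.update base j p) i s) (e j p) ∧
        ga L c (Function.update (Function.update base j p) i s) (e j p) = 0 := by
      intro s hs
      refine ⟨fun k => ?_, ?_⟩
      · by_cases hk : k = j
        · subst hk
          rw [e_same, Function.update_of_ne (Ne.symm hij), Function.update_self]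
          exact self_i hy k p
        · rw [e_ne hk]; exact (C k).q_one _
      · rw [ga_zero_iff]
        refine hr _ (fun k => ?_) _
        by_cases hk : k = i
        · subst hk; rw [Function.update_self]; exact hs
        · rw [Function.update_of_ne hk]
          by_cases hk' : k = j
          · subst hk'; rw [Function.update_self]; exact hp
          · rw [Function.update_of_ne hk']; exact hbase k
    obtain ⟨t1, g1⟩ := key r hr1
    obtain ⟨t2, g2⟩ := key r' hr1'
    have h2 := ga_add' hy t1 t2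
    rw [g1, g2, add_zero] at h2
    have h3 : (e i (r * r') : ∀ i, (C i).G) =
        Function.update (Function.update base j p) i r *
          Function.update (Function.update base j p) i r' := by
      funext k
      rw [Pi.mul_apply]
      by_cases hk : k = i
      · subst hk; rw [e_same, Function.update_self, Function.update_self]
      · rw [e_ne hk, Function.update_of_ne hk, Function.update_of_ne hk, (C k).exp_two]
    rw [h3]
    exact h2
  have h2 : ∀ p ∈ (pc j).R, ga L c (e i a) (e j p) = 0 := fun p hp =>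
    (mem_kerL hy hij p a).1 ((pc i).spanD (kerL hy hij p)
      (fun r hr1 r' hr1' => (mem_kerL hy hij p _).2 (h1 r hr1 r' hr1' p hp)) a ha)
  have h3 := (pc j).span (kerL hy (Ne.symm hij) a)
    (fun r hr1 => (mem_kerL hy (Ne.symm hij) a r).2 (by rw [ga_symm]; exact h2 r hr1)) b
  rw [mem_kerL, ga_symm] at h3
  exact h3

theorem kD' {i j : ι} (hij : i ≠ j) (a : (C i).G) {b : (C j).G} (hb : b ∈ (pc j).D) :
    ga L c (e i a) (e j b) = 0 := by
  rw [ga_symm]; exact kD hy pc hr (Ne.symm hij) hb a

omit hr in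
/-- a reference element of `∏ D_i` -/
theorem exists_rho : ∃ ρ : ∀ i, (C i).G, (∀ i, ρ i ∈ (pc i).D) ∧
    (∀ i, ∀ t, t ∉ (pc i).D → ρ i ≠ 1) ∧ (∀ i, (∀ a, a ∈ (pc i).D) → ρ i = 1) := by
  classical
  have : ∀ i, ∃ r : (C i).G, r ∈ (pc i).D ∧ (∀ t, t ∉ (pc i).D → r ≠ 1) ∧
      ((∀ a, a ∈ (pc i).D) → r = 1) := by
    intro i
    by_cases h : ∀ a, a ∈ (pc i).D
    · exact ⟨1, (pc i).D.one_mem, fun t ht => absurd (h t) ht, fun _ => rfl⟩
    · push Not at h
      obtain ⟨t, ht⟩ := h
      obtain ⟨w, hw, hw1⟩ := (pc i).h3 t ht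
      exact ⟨w, hw, fun _ _ => hw1, fun h => absurd (h t) ht⟩
  choose ρ h1 h2 h3 using this
  exact ⟨ρ, h1, h2, h3⟩

/-- no cross values -/
theorem kap_zero {i₀ j₀ : ι} (hij : i₀ ≠ j₀) (a₀ : (C i₀).G) (b₀ : (C j₀).G) :
    ga L c (e i₀ a₀) (e j₀ b₀) = 0 := by
  by_contra hne
  have h1 : ga L c (e i₀ a₀) (e j₀ b₀) = 1 := (zmod2 _).resolve_left hne
  have ha₀ : a₀ ∉ (pc i₀).D := fun h => hne (kD hy pc hr hij h b₀)
  have hb₀ : b₀ ∉ (pc j₀).D := fun h => hne (kD' hy pc hr hij a₀ h)
  obtain ⟨ρ, hρD, hρ1, hρ0⟩ := exists_rho hy pc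
  -- (i)
  have G0 : ∀ j, ∀ t, t ∉ (pc j).D → ∀ r ∈ (pc j).D, r ≠ 1 → ∀ u, (C j).q r u = (C j).zero →
      ga L c (e j r) (e j u) = 0 := by
    intro j t ht r hrD hr1 u hu
    by_contra hne2
    have h2 : ga L c (e j r) (e j u) = 1 := (zmod2 _).resolve_left hne2
    set w : ∀ i, (C i).G := Function.update (Function.update ρ i₀ 1) j r with hw
    have hwj : w j = r := Function.update_self ..
    have hwk : ∀ k, k ≠ j → k ≠ i₀ → w k = ρ k := fun k h h' => by
      rw [hw, Function.update_of_ne h, Function.update_of_ne h']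
    have hwi : i₀ ≠ j → w i₀ = 1 := fun h => by
      rw [hw, Function.update_of_ne h, Function.update_self]
    have hwD : ∀ k, w k ∈ (pc k).D := by
      intro k
      by_cases hk : k = j
      · subst hk; rw [hwj]; exact hrD
      · by_cases hk' : k = i₀
        · subst hk'; rw [hwi hk]; exact (pc k).D.one_mem
        · rw [hwk k hk hk']; exact hρD k
    have htc : TC w (e j u) := by
      intro k
      by_cases hk : k = j
      · subst hk; rw [hwj, e_same]; exact hu
      · rw [e_ne hk]; exact (C k).q_one _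
    have h3 : ga L c w (e j u) = 1 := by
      rw [expand_single hy htc j j, hwj, e_same, h2]
      intro i k hik
      by_cases hk : k = j
      · subst hk
        rcases hik with h | h
        · exact kD hy pc hr h (hwD i) _
        · exact absurd rfl h
      · rw [e_ne hk, e_one k]
        exact ga_one hy _
    obtain ⟨s, hs1, hs2⟩ := L.link w (e j u) (e i₀ a₀) (e j₀ b₀)
      ((ga_one_iff.1 h3).trans (ga_one_iff.1 h1).symm)
    have hws : L.q w s = c := by rw [← hs1]; exact ga_one_iff.1 h3
    have hxs : L.q (e i₀ a₀) s = c := by rw [← hs2]; exact ga_one_iff.1 h1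
    have tw := tc_of_c hy hws
    have tx := tc_of_c hy hxs
    have h4 : ga L c (e i₀ a₀) s = 0 := by
      refine expand_zero hy tx fun i k => ?_
      by_cases hi : i = i₀
      · subst hi
        rw [e_same]
        by_cases hk : k = i
        · subst hk
          have h5 := tx k
          rw [e_same] at h5
          rcases (pc k).h1 a₀ ha₀ _ h5 with h6 | h6
          · rw [h6, e_one k]
            exact ga_one hy _
          · rw [h6]; exact ga_self hy _
        · refine kD' hy pc hr (Ne.symm hk) _ ?_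
          by_contra hsk
          have hwk1 : w k ≠ 1 := by
            by_cases hkj : k = j
            · subst hkj; rw [hwj]; exact hr1
            · rw [hwk k hkj hk]; exact hρ1 k _ hsk
          exact hsk ((pc k).h2 _ hsk (w k) (hwD k) hwk1 _ (tw k))
      · rw [e_ne hi, e_one i]
        exact one_ga hy _
    rw [ga_zero_iff] at h4
    exact h4 hxs
  -- (ii)
  set v : ∀ i, (C i).G := Function.update (Function.update ρ i₀ a₀) j₀ b₀ with hv
  set v' : ∀ i, (C i).G :=
    Function.update (Function.update ρ i₀ (a₀ * ρ i₀)) j₀ (b₀ * ρ j₀) with hv'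
  have hvj : v j₀ = b₀ := Function.update_self ..
  have hvi : v i₀ = a₀ := by rw [hv, Function.update_of_ne hij, Function.update_self]
  have hvk : ∀ k, k ≠ i₀ → k ≠ j₀ → v k = ρ k := fun k h h' => by
    rw [hv, Function.update_of_ne h', Function.update_of_ne h]
  have hvj' : v' j₀ = b₀ * ρ j₀ := Function.update_self ..
  have hvi' : v' i₀ = a₀ * ρ i₀ := by rw [hv', Function.update_of_ne hij, Function.update_self]
  have hvk' : ∀ k, k ≠ i₀ → k ≠ j₀ → v' k = ρ k := fun k h h' => by
    rw [hv', Function.update_of_ne h', Function.update_of_ne h]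
  have val : ∀ (x : ∀ i, (C i).G), (∀ k, k ≠ i₀ → k ≠ j₀ → x k = ρ k) →
      ga L c (e j₀ (x j₀)) (e i₀ (x i₀)) = 1 → L.q x (e i₀ (x i₀)) = c := by
    intro x hx hx1
    have htc : TC x (e i₀ (x i₀)) := (tc_self hy x).e_right i₀
    rw [← ga_one_iff, expand_single hy htc j₀ i₀, e_same, hx1]
    intro i k hik
    by_cases hk : k = i₀
    · subst hk
      rw [e_same]
      rcases hik with h | h
      · by_cases hi : i = k
        · subst hi; exact ga_self hy _
        · rw [hx i hi h]; exact kD hy pc hr hi (hρD i) _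
      · exact absurd rfl h
    · rw [e_ne hk, e_one k]
      exact ga_one hy _
  have c1 : L.q v (e i₀ (v i₀)) = c := val v hvk (by rw [hvj, hvi, ga_symm]; exact h1)
  have c2 : L.q v' (e i₀ (v' i₀)) = c := val v' hvk' (by
    rw [hvj', hvi', kadd hy (Ne.symm hij), kD hy pc hr (Ne.symm hij) (hρD j₀), add_zero, ga_symm,
      kadd hy hij, kD hy pc hr hij (hρD i₀), add_zero]
    exact h1)
  obtain ⟨s, hs1, hs2⟩ := L.link _ _ _ _ (c1.trans c2.symm)
  rw [c1] at hs1
  rw [c2] at hs2
  have t1 := tc_of_c hy hs1.symm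
  have t2 := tc_of_c hy hs2.symm
  have hnotin : ∀ (k : ι) (x : (C k).G), x ∉ (pc k).D → x * ρ k ∉ (pc k).D := fun k x hx h =>
    hx ((Subgroup.mul_mem_cancel_right _ (hρD k)).1 h)
  have hsi : s i₀ = 1 := by
    have h5 := t1 i₀
    have h6 := t2 i₀
    rw [hvi] at h5
    rw [hvi'] at h6
    rcases (pc i₀).h1 _ ha₀ _ h5 with h7 | h7
    · exact h7
    · rcases (pc i₀).h1 _ (hnotin _ _ ha₀) _ h6 with h8 | h8
      · exact h8
      · exfalso
        rw [h7] at h8
        exact hρ1 i₀ _ ha₀ (mul_left_cancel (a := a₀) (by rw [← h8, mul_one]))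
  have hsj : s j₀ = 1 := by
    have h5 := t1 j₀
    have h6 := t2 j₀
    rw [hvj] at h5
    rw [hvj'] at h6
    rcases (pc j₀).h1 _ hb₀ _ h5 with h7 | h7
    · exact h7
    · rcases (pc j₀).h1 _ (hnotin _ _ hb₀) _ h6 with h8 | h8
      · exact h8
      · exfalso
        rw [h7] at h8
        exact hρ1 j₀ _ hb₀ (mul_left_cancel (a := b₀) (by rw [← h8, mul_one]))
  have h9 : ga L c v s = 0 := by
    refine expand_zero hy t1 fun i k => ?_
    by_cases hk : k = i₀
    · subst hk
      rw [hsi, e_one k]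
      exact ga_one hy _
    by_cases hk' : k = j₀
    · subst hk'
      rw [hsj, e_one k]
      exact ga_one hy _
    have hsD : s k ∈ (pc k).D := by
      by_contra hsk
      have h10 := t1 k
      rw [hvk k hk hk'] at h10
      exact hsk ((pc k).h2 _ hsk (ρ k) (hρD k) (hρ1 k _ hsk) _ h10)
    by_cases hik : i = k
    · subst hik
      rw [hvk i hk hk']
      by_cases hall : ∀ a, a ∈ (pc i).D
      · rw [hρ0 i hall, e_one i]
        exact one_ga hy _
      · push Not at hall
        obtain ⟨t, ht⟩ := hall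
        refine G0 i t ht (ρ i) (hρD i) (hρ1 i t ht) _ ?_
        have h10 := t1 i
        rwa [hvk i hk hk'] at h10
    · exact kD' hy pc hr hik _ hsD
  rw [ga_zero_iff] at h9
  exact h9 hs1.symm

theorem reg_zero {i : ι} {a b : (C i).G} (ha : a ∈ (pc i).R) (hab : (C i).q a b = (C i).zero) :
    ga L c (e i a) (e i b) = 0 := by
  choose base hbase using fun k => (pc k).ne
  have htc : TC (Function.update base i a) (e i b) := by
    intro k
    by_cases hk : k = i
    · subst hk; rw [Function.update_self, e_same]; exact hab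
    · rw [e_ne hk]; exact (C k).q_one _
  have h1 : ga L c (Function.update base i a) (e i b) = 0 := by
    rw [ga_zero_iff]
    refine hr _ (fun k => ?_) _
    by_cases hk : k = i
    · subst hk; rw [Function.update_self]; exact ha
    · rw [Function.update_of_ne hk]; exact hbase k
  rw [expand_single hy htc i i, Function.update_self, e_same] at h1
  · exact h1
  · intro k l hkl
    by_cases hl : l = i
    · subst hl
      rcases hkl with h | h
      · exact kap_zero hy pc hr h _ _
      · exact absurd rfl h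
    · rw [e_ne hl, e_one l]
      exact ga_one hy _

/-- a nonzero `ga` inside a component: the elements lie in `D` -/
theorem inside {i : ι} {a b : (C i).G} (hab : (C i).q a b = (C i).zero)
    (h : ga L c (e i a) (e i b) = 1) : a ∈ (pc i).D ∧ a ≠ 1 ∧ ∃ t, t ∉ (pc i).D := by
  have ha1 : a ≠ 1 := by
    rintro rfl
    rw [e_one i, one_ga hy] at h
    exact absurd h (by decide)
  have haR : a ∉ (pc i).R := by
    intro ha
    rw [reg_zero hy pc hr ha hab] at h
    exact absurd h (by decide)
  have ht : ∃ t, t ∉ (pc i).D := by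
    by_contra hno
    push Not at hno
    exact haR ((pc i).hL hno a ha1)
  obtain ⟨t, ht⟩ := ht
  refine ⟨?_, ha1, t, ht⟩
  by_contra hD
  exact haR ((pc i).hR t ht a hD)

/-- at most one component -/
theorem only_one {i j : ι} (hij : i ≠ j) {a b : (C i).G} {a' b' : (C j).G}
    (hab : (C i).q a b = (C i).zero) (hab' : (C j).q a' b' = (C j).zero)
    (h : ga L c (e i a) (e i b) = 1) (h' : ga L c (e j a') (e j b') = 1) : False := by
  obtain ⟨haD, ha1, ti, hti⟩ := inside hy pc hr hab h
  obtain ⟨haD', ha1', tj, htj⟩ := inside hy pc hr hab' h'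
  have tx : TC (e i a * e j tj : ∀ i, (C i).G) (e i b) :=
    ((TC.single hab).symm.mul (TC.of_ne hij b tj)).symm
  have ty : TC (e j a' * e i ti : ∀ i, (C i).G) (e j b') :=
    ((TC.single hab').symm.mul (TC.of_ne (Ne.symm hij) b' ti)).symm
  have gx : L.q (e i a * e j tj) (e i b) = c := by
    rw [← ga_one_iff, ga_add' hy (TC.single hab) (TC.of_ne (Ne.symm hij) tj b), h,
      kap_zero hy pc hr (Ne.symm hij), add_zero]
  have gy : L.q (e j a' * e i ti) (e j b') = c := by
    rw [← ga_one_iff, ga_add' hy (TC.single hab') (TC.of_ne hij ti b'), h',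
      kap_zero hy pc hr hij, add_zero]
  obtain ⟨s, hs1, hs2⟩ := L.link _ _ _ _ (gx.trans gy.symm)
  rw [gx] at hs1
  rw [gy] at hs2
  have t1 := tc_of_c hy hs1.symm
  have t2 := tc_of_c hy hs2.symm
  have hxi : (e i a * e j tj : ∀ i, (C i).G) i = a := by
    rw [Pi.mul_apply, e_same, e_ne hij, mul_one]
  have hxj : (e i a * e j tj : ∀ i, (C i).G) j = tj := by
    rw [Pi.mul_apply, e_same, e_ne (Ne.symm hij), one_mul]
  have hyj : (e j a' * e i ti : ∀ i, (C i).G) j = a' := by
    rw [Pi.mul_apply, e_same, e_ne (Ne.symm hij), mul_one]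
  have hyi : (e j a' * e i ti : ∀ i, (C i).G) i = ti := by
    rw [Pi.mul_apply, e_same, e_ne hij, one_mul]
  have hsi : s i = 1 := by
    have h5 := t1 i
    have h6 := t2 i
    rw [hxi] at h5
    rw [hyi] at h6
    have h7 := (pc i).h2 ti hti a haD ha1 _ h5
    rcases (pc i).h1 ti hti _ h6 with h8 | h8
    · exact h8
    · rw [h8] at h7; exact absurd h7 hti
  have hsj : s j = 1 := by
    have h5 := t1 j
    have h6 := t2 j
    rw [hxj] at h5
    rw [hyj] at h6
    have h7 := (pc j).h2 tj htj a' haD' ha1' _ h6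
    rcases (pc j).h1 tj htj _ h5 with h8 | h8
    · exact h8
    · rw [h8] at h7; exact absurd h7 htj
  have h9 : ga L c (e i a * e j tj) s = 0 := by
    refine expand_zero hy t1 fun k l => ?_
    by_cases hkl : k = l
    · subst hkl
      by_cases hki : k = i
      · subst hki
        rw [hsi, e_one k]
        exact ga_one hy _
      by_cases hkj : k = j
      · subst hkj
        rw [hsj, e_one k]
        exact ga_one hy _
      have : (e i a * e j tj : ∀ i, (C i).G) k = 1 := by
        rw [Pi.mul_apply, e_ne hki, e_ne hkj, mul_one]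
      rw [this, e_one k]
      exact one_ga hy _
    · exact kap_zero hy pc hr hkl _ _
  rw [ga_zero_iff] at h9
  exact h9 hs1.symm

/-- the component of `c` -/
theorem exists_comp (hv : ∃ u v, L.q u v = c) : ∃ i₀ : ι, (∃ t, t ∉ (pc i₀).D) ∧
    (∃ a : (C i₀).G, a ≠ 1) ∧
    ∀ j, j ≠ i₀ → ∀ a b : (C j).G, (C j).q a b = (C j).zero → ga L c (e j a) (e j b) = 0 := by
  obtain ⟨u, v, huv⟩ := hv
  have htc := tc_of_c hy huv
  have : ∃ i j, ga L c (e i (u i)) (e j (v j)) ≠ 0 := by
    by_contra hno
    push Not at hno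
    have := expand_zero hy htc hno
    rw [ga_zero_iff] at this
    exact this huv
  obtain ⟨i, j, hne⟩ := this
  have hij : i = j := by
    by_contra hij
    exact hne (kap_zero hy pc hr hij _ _)
  subst hij
  have h1 := (zmod2 _).resolve_left hne
  obtain ⟨-, ha1, ht⟩ := inside hy pc hr (htc i) h1
  refine ⟨i, ht, ⟨u i, ha1⟩, fun j hj a b hab => ?_⟩
  by_contra hne2
  exact only_one hy pc hr hj hab (htc i) ((zmod2 _).resolve_left hne2) h1

end

end Pool.Agent.RF66
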