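import Pool.Agent.RF66.Door

/-!
Route F: the criterion for prime quaternions. `GoodQ S c`: whenever `c` is the sum along some `x`
of a value `k` of `a` and a value `k'` of `d`, then `c` is a value of `a`, `d` or `ad`.
-/

set_option autoImplicit false
set_option linter.unusedSectionVars false

namespace Pool.Agent.RF66

open QS
open MXR66 (qr qm ql of_ql)

section

variable {S : QStruct}

/-- sums of common values do not depend on the common slot -/
theorem sum_eq {A B p p' m m' : S.G} (h1 : S.q A p = S.q B p') (h2 : S.q A m = S.q B m') :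
    S.q A (p * m) = S.q B (p' * m') := by
  obtain ⟨s, a1, a2⟩ := S.qs4 _ _ _ _ h1
  obtain ⟨t, b1, b2⟩ := S.qs4 _ _ _ _ h2
  have e1 : S.q A (p * m) = S.q A (s * t) := by
    rw [S.qs3, mul_mul_mul_comm, qr (qm a1)]
    exact qm b1
  have e2 : S.q B (p' * m') = S.q B (s * t) := by
    rw [S.qs3, mul_mul_mul_comm, qr (qm a2)]
    exact qm b2
  have e3 : S.q A s = S.q B s := by rw [← a1, ← a2, h1]
  have e4 : S.q A t = S.q B t := by rw [← b1, ← b2, h2]
  rw [e1, e2]
  apply of_ql
  rw [qr (ql e3)]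
  exact ql e4

/-- `β` and `β'` differ by `c` -/
def Diff (S : QStruct) (c β β' : S.Q) : Prop :=
  β = β' ∨ ∃ A p m, S.q A p = β ∧ S.q A m = β' ∧ S.q A (p * m) = c

theorem Diff.symm {c β β' : S.Q} (h : Diff S c β β') : Diff S c β' β := by
  rcases h with h | ⟨A, p, m, h1, h2, h3⟩
  · exact Or.inl h.symm
  · exact Or.inr ⟨A, m, p, h2, h1, by rw [mul_comm]; exact h3⟩

theorem Diff.trans {c β β' β'' : S.Q} (h : Diff S c β β') (h' : Diff S c β' β'') :
    Diff S c β β'' := by
  rcases h with rfl | ⟨A, p, m, h1, h2, h3⟩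
  · exact h'
  · rcases h' with rfl | ⟨B, p', m', h1', h2', h3'⟩
    · exact Or.inr ⟨A, p, m, h1, h2, h3⟩
    · left
      have h4 := sum_eq (h2.trans h1'.symm) (h3.trans h3'.symm)
      rw [mul_comm p m, ← mul_assoc, S.exp_two, one_mul, ← mul_assoc, S.exp_two, one_mul] at h4
      rw [← h1, ← h2', h4]

def diffSetoid (S : QStruct) (c : S.Q) : Setoid S.Q where
  r := Diff S c
  iseqv := ⟨fun _ => Or.inl rfl, Diff.symm, Diff.trans⟩

theorem diff_zero {c : S.Q} {a b : S.G} : Diff S c (S.q a b) S.zero ↔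
    (S.q a b = S.zero ∨ S.q a b = c) := by
  constructor
  · rintro (h | ⟨A, p, m, h1, h2, h3⟩)
    · exact Or.inl h
    · right
      have h4 := sum_eq h1 (show S.q A m = S.q a 1 by rw [h2, S.q_one])
      rw [mul_one] at h4
      rw [← h4, h3]
  · rintro (h | h)
    · exact Or.inl h
    · exact Or.inr ⟨a, b, 1, rfl, S.q_one a, by rw [mul_one]; exact h⟩

/-- the criterion -/
def GoodQ (S : QStruct) (c : S.Q) : Prop := ∀ a d x u v : S.G,
  S.q a u = S.q x u → S.q d v = S.q x v → S.q x (u * v) = c →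
  (∃ z, S.q a z = c) ∨ (∃ z, S.q d z = c) ∨ (∃ z, S.q (a * d) z = c)

theorem slot_of_good {c : S.Q} (hg : GoodQ S c) {a b d f : S.G}
    (h : Diff S c (S.q a b) (S.q d f)) :
    ∃ x, Diff S c (S.q a b) (S.q a x) ∧ Diff S c (S.q d f) (S.q d x) := by
  rcases h with h | ⟨A, p, m, h1, h2, h3⟩
  · obtain ⟨x, hx1, hx2⟩ := S.qs4 _ _ _ _ h
    exact ⟨x, Or.inl hx1, Or.inl hx2⟩
  · obtain ⟨u, u1, u2⟩ := S.qs4 _ _ _ _ h1
    obtain ⟨v, v1, v2⟩ := S.qs4 _ _ _ _ h2
    have hau : S.q a u = S.q A u := by rw [← u1, ← u2, h1]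
    have hdv : S.q d v = S.q A v := by rw [← v1, ← v2, h2]
    have huv : S.q A (u * v) = c := by
      rw [← h3, S.qs3, mul_mul_mul_comm, mul_comm u p, mul_comm v m, qr (qm u1)]
      exact qm v1
    rw [u2, v2]
    rcases hg a d A u v hau hdv huv with ⟨z, hz⟩ | ⟨z, hz⟩ | ⟨z, hz⟩
    · -- `c ∈ Q_a`
      have e1 := sum_eq hau.symm (huv.trans hz.symm)
      rw [← mul_assoc, S.exp_two, one_mul] at e1
      obtain ⟨w, w1, w2⟩ := S.qs4 a (u * z) d v (by rw [← e1, hdv])
      refine ⟨w, Or.inr ⟨a, u, u * z, rfl, w1, ?_⟩, Or.inl w2⟩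
      rw [← mul_assoc, S.exp_two, one_mul, hz]
    · -- `c ∈ Q_d`
      have e1 := sum_eq hdv.symm (huv.trans hz.symm)
      rw [mul_comm u v, ← mul_assoc, S.exp_two, one_mul] at e1
      obtain ⟨w, w1, w2⟩ := S.qs4 a u d (v * z) (by rw [← e1, hau])
      refine ⟨w, Or.inl w1, Or.inr ⟨d, v, v * z, rfl, w2, ?_⟩⟩
      rw [← mul_assoc, S.exp_two, one_mul, hz]
    · -- `c ∈ Q_(ad)`
      obtain ⟨y, y1, y2⟩ := S.qs4 A (u * v) (a * d) z (huv.trans hz.symm)
      have hAY : S.q A (u * v * y) = S.zero := qm y1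
      have hPy : S.q (A * (a * d)) y = S.zero := ql (by rw [← y1, ← y2, huv, hz])
      have hru : S.q (A * a) u = S.zero := ql hau.symm
      have htv : S.q (A * d) v = S.zero := ql hdv.symm
      -- `q (uy) P = q d u`
      have f1 : S.q (u * y) (A * (a * d)) = S.q d u := by
        rw [S.qs2 (u * y), mul_comm u y, qr hPy, ← mul_assoc A a d, S.qs2 _ u,
          qr (by rw [S.qs2]; exact hru), S.qs2 u d]
      -- `q (uy) t = q d (uvy)`
      have f2 : S.q (u * y) (A * d) = S.q d (u * v * y) := by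
        have g1 : S.q (A * d) (u * y) = S.q (A * d) (u * v * y) := by
          have : u * v * y = v * (u * y) := by
            rw [mul_comm u v, mul_assoc]
          rw [this, qr htv]
        have g2 : S.q (u * v * y) (A * d) = S.q (u * v * y) d :=
          qr (by rw [S.qs2]; exact hAY)
        rw [S.qs2 (u * y), g1, S.qs2 (A * d), g2, S.qs2]
      have f3 := sum_eq f1 f2
      have k1 : A * (a * d) * (A * d) = a := by
        have : A * (a * d) * (A * d) = (A * A) * (d * d) * a := by ac_rfl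
        rw [this, S.exp_two, S.exp_two, one_mul, one_mul]
      have k2 : u * (u * v * y) = v * y := by
        rw [mul_assoc u v y, ← mul_assoc, S.exp_two, one_mul]
      rw [k1, k2, S.qs2 (u * y) a] at f3
      obtain ⟨w, w1, w2⟩ := S.qs4 _ _ _ _ f3
      refine ⟨w * y, Or.inl ?_, Or.inl ?_⟩
      · rw [S.qs3, mul_comm w y, ← mul_assoc]
        exact qm w1
      · rw [S.qs3, mul_comm w y, ← mul_assoc]
        exact qm w2

/-- the structure `S / c` -/
def quo (S : QStruct) (c : S.Q) (hg : GoodQ S c) : QStruct where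
  G := S.G
  Q := Quotient (diffSetoid S c)
  neg := S.neg
  zero := Quotient.mk _ S.zero
  q := fun a b => Quotient.mk _ (S.q a b)
  exp_two := S.exp_two
  surj := by
    intro β
    induction β using Quotient.inductionOn with
    | _ β =>
      obtain ⟨a, b, h⟩ := S.surj β
      exact ⟨a, b, by rw [h]⟩
  qs1 := fun a => by rw [S.qs1]
  qs2 := fun a b => by rw [S.qs2]
  qs3 := by
    intro a b d
    rw [Quotient.eq, Quotient.eq]
    show Diff S c _ _ ↔ Diff S c _ _
    rw [diff_zero]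
    constructor
    · rintro (h | ⟨A, p, m, h1, h2, h3⟩)
      · exact Or.inl (qm h)
      · right
        rw [← sum_eq h1 h2, h3]
    · rintro (h | h)
      · exact Or.inl ((S.qs3 _ _ _).2 h)
      · exact Or.inr ⟨a, b, d, rfl, rfl, h⟩
  qs4 := by
    intro a b d f h
    obtain ⟨x, h1, h2⟩ := slot_of_good hg (Quotient.exact h)
    exact ⟨x, Quotient.sound h1, Quotient.sound h2⟩

theorem prime_of_good (hneg : S.neg = 1) {c : S.Q} (hc : c ≠ S.zero) (hg : GoodQ S c) :
    PrimeQ S c := by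
  refine ⟨hc, quo S c hg, MulEquiv.refl S.G, hneg, fun u v => ?_⟩
  show (Quotient.mk (diffSetoid S c) (S.q u v) = Quotient.mk _ S.zero) ↔ _
  rw [Quotient.eq]
  exact diff_zero

/-- conversely prime quaternions satisfy the criterion -/
theorem good_of_prime {c : S.Q} (h : PrimeQ S c) : GoodQ S c := by
  obtain ⟨hc, T, φ, hTn, hT⟩ := h
  intro a d x u v h1 h2 h3
  by_contra hno
  push Not at hno
  obtain ⟨n1, n2, n3⟩ := hno
  -- `a u = x u = x v = d v` modulo `c`
  have t1 : T.q (φ a) (φ u) = T.q (φ x) (φ u) := by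
    have := (hT (a * x) u).2 (Or.inl (ql h1))
    rw [map_mul] at this
    rw [T.qs2 (φ a), T.qs2 (φ x), T.qs3, T.qs2]
    exact this
  have t2 : T.q (φ d) (φ v) = T.q (φ x) (φ v) := by
    have := (hT (d * x) v).2 (Or.inl (ql h2))
    rw [map_mul] at this
    rw [T.qs2 (φ d), T.qs2 (φ x), T.qs3, T.qs2]
    exact this
  have t3 : T.q (φ x) (φ u) = T.q (φ x) (φ v) := by
    rw [T.qs3, ← map_mul]
    exact (hT _ _).2 (Or.inr h3)
  obtain ⟨s, s1, s2⟩ := T.qs4 (φ a) (φ u) (φ d) (φ v) (by rw [t1, t3, t2])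
  obtain ⟨w, rfl⟩ := φ.surjective s
  have r1 : S.q a (u * w) = S.zero := by
    have := (T.qs3 _ _ _).1 s1
    rw [← map_mul, hT] at this
    exact this.resolve_right (n1 _)
  have r2 : S.q d (v * w) = S.zero := by
    have := (T.qs3 _ _ _).1 s2
    rw [← map_mul, hT] at this
    exact this.resolve_right (n2 _)
  have r3 : S.q (a * d) w = S.zero := by
    have h4 : T.q (φ a) (φ w) = T.q (φ d) (φ w) := by rw [← s1, ← s2, t1, t3, t2]
    have h5 : T.q (φ (a * d)) (φ w) = T.zero := by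
      rw [map_mul, T.qs2, ← T.qs3, T.qs2, h4, T.qs2]
    exact ((hT _ _).1 h5).resolve_right (n3 _)
  -- so `a u = a w = d w = d v` in `S`, and `x (u v) = 0`
  have q1 : S.q a u = S.q a w := (S.qs3 _ _ _).2 r1
  have q2 : S.q d v = S.q d w := (S.qs3 _ _ _).2 r2
  have q3 : S.q a w = S.q d w := of_ql r3
  have q4 : S.q x u = S.q x v := by rw [← h1, ← h2, q1, q2, q3]
  exact hc (by rw [← h3]; exact qm q4)

end

/-- **Route F with the criterion** -/
theorem etc_of_good (h : ∀ S : QStruct, Finite S.G → S.neg = 1 → ¬ ElemType S →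
    (∀ T : QStruct, Finite T.G → T.neg = 1 → Nat.card T.G < Nat.card S.G → ElemType T) →
    ∃ c, c ≠ S.zero ∧ GoodQ S c) :
    ∀ S : QStruct, Finite S.G → S.neg = 1 → ElemType S :=
  etc_of_prime fun S hf hneg hS hsm => by
    obtain ⟨c, hc, hg⟩ := h S hf hneg hS hsm
    exact ⟨c, prime_of_good hneg hc hg⟩

end Pool.Agent.RF66
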