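import Pool.Agent.MXR66.Doors

/-!
Route F (helper29, helper79, helper84; typed by helper66): structures of elementary type with
`-1 = 1` and trivial radical are products of pieces (local types and group extensions).
-/

set_option autoImplicit false
set_option linter.unusedSectionVars false

namespace Pool.Agent.RF66

open QS

/-- an indecomposable piece: a set `R` of regular elements and a subgroup `D`; either `D` is
everything (local type) or `P = D[t]` -/
structure Pc (P : QStruct) where
  D : Subgroup P.G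
  R : Set P.G
  ne : R.Nonempty
  nt : ∀ a ∈ R, a ≠ 1
  reg : ∀ p ∈ R, ∀ w v, P.q p w = P.zero → ∃ u, P.q p u = P.q w v
  span : ∀ H : Subgroup P.G, (∀ r ∈ R, r ∈ H) → ∀ a, a ∈ H
  spanD : ∀ H : Subgroup P.G, (∀ r ∈ R, ∀ r' ∈ R, r * r' ∈ H) → ∀ a ∈ D, a ∈ H
  hL : (∀ a, a ∈ D) → ∀ a, a ≠ 1 → a ∈ R
  hR : ∀ t, t ∉ D → ∀ a, a ∉ D → a ∈ R
  h1 : ∀ p, p ∉ D → ∀ u, P.q p u = P.zero → u = 1 ∨ u = p
  h2 : ∀ t, t ∉ D → ∀ w ∈ D, w ≠ 1 → ∀ u, P.q w u = P.zero → u ∈ D
  h3 : ∀ t, t ∉ D → ∃ w ∈ D, w ≠ 1
  h4 : ∀ a b, a ∉ D → b ∉ D → a * b ∈ D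

/-- pieces of the form `D[t]` -/
def Pc.ofT (P : QStruct) (D : Subgroup P.G) (t : P.G) (ht : t ∉ D)
    (h4 : ∀ a b, a ∉ D → b ∉ D → a * b ∈ D)
    (h1 : ∀ p, p ∉ D → ∀ u, P.q p u = P.zero → u = 1 ∨ u = p)
    (h2 : ∀ w ∈ D, w ≠ 1 → ∀ u, P.q w u = P.zero → u ∈ D)
    (h3 : ∃ w ∈ D, w ≠ 1) : Pc P where
  D := D
  R := {a | a ∉ D}
  ne := ⟨t, ht⟩
  nt := fun a ha h => ha (h ▸ D.one_mem)
  reg := by
    intro p hp w v hw
    rcases h1 p hp w hw with rfl | rfl
    · exact ⟨1, by rw [P.q_one, P.qs2, P.q_one]⟩
    · exact ⟨v, rfl⟩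
  span := by
    intro H hH a
    by_cases ha : a ∈ D
    · have h5 : t * a ∉ D := fun h => ht ((Subgroup.mul_mem_cancel_right D ha).1 h)
      have h6 := H.mul_mem (hH t ht) (hH _ h5)
      rwa [← mul_assoc, P.exp_two, one_mul] at h6
    · exact hH a ha
  spanD := by
    intro H hH a ha
    have h5 : t * a ∉ D := fun h => ht ((Subgroup.mul_mem_cancel_right D ha).1 h)
    have h6 := hH t ht _ h5
    rwa [← mul_assoc, P.exp_two, one_mul] at h6
  hL := fun h => absurd (h t) ht
  hR := fun _ _ a ha => ha
  h1 := h1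
  h2 := fun _ _ => h2
  h3 := fun _ _ => h3
  h4 := h4

/-- local pieces -/
def Pc.ofL (P : QStruct) (hr : ∀ a, (∀ b, P.q a b = P.zero) → a = 1)
    (h2 : Nat.card P.Q = 2) (h8 : 8 ≤ Nat.card P.G) : Pc P where
  D := ⊤
  R := {a | a ≠ 1}
  ne := by
    by_contra hno
    rw [Set.not_nonempty_iff_eq_empty, Set.eq_empty_iff_forall_notMem] at hno
    have hs : Subsingleton P.G := ⟨fun a b => by
      have h1 : a = 1 := not_not.1 (hno a)
      have h2 : b = 1 := not_not.1 (hno b)
      rw [h1, h2]⟩
    have : Nat.card P.G = 1 := Nat.card_unique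
    omega
  nt := fun a ha => ha
  reg := by
    intro p hp w v _
    by_cases hz : P.q w v = P.zero
    · exact ⟨1, by rw [P.q_one, hz]⟩
    · obtain ⟨b, hb⟩ : ∃ b, P.q p b ≠ P.zero := by
        by_contra hno
        push Not at hno
        exact hp (hr p hno)
      refine ⟨b, ?_⟩
      obtain ⟨x, y, hxy, hu⟩ := Nat.card_eq_two_iff.1 h2
      have h3 : ∀ z : P.Q, z = x ∨ z = y := fun z => by
        have : z ∈ ({x, y} : Set P.Q) := by rw [hu]; trivial
        simpa using this
      rcases h3 P.zero with h | h <;> rcases h3 (P.q w v) with h' | h' <;>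
        rcases h3 (P.q p b) with h'' | h'' <;> simp_all
  span := by
    intro H hH a
    by_cases ha : a = 1
    · rw [ha]; exact H.one_mem
    · exact hH a ha
  spanD := by
    intro H hH a _
    by_cases ha : a = 1
    · rw [ha]; exact H.one_mem
    · obtain ⟨r, hr1, hr2⟩ : ∃ r : P.G, r ≠ 1 ∧ r ≠ a := by
        by_contra hno
        push Not at hno
        classical
        have hs : Function.Surjective (fun b : Bool => if b then (1 : P.G) else a) := by
          intro g
          by_cases h1 : g = 1
          · exact ⟨true, by simp [h1]⟩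
          · exact ⟨false, by simp [hno g h1]⟩
        have : Nat.card P.G ≤ Nat.card Bool := Nat.card_le_card_of_surjective _ hs
        simp at this
        omega
      have h5 : r * a ≠ 1 := fun h => hr2 ((eq_iff_mul P r a).2 h)
      have h6 := hH r hr1 _ h5
      rwa [← mul_assoc, P.exp_two, one_mul] at h6
  hL := fun _ a ha => ha
  hR := fun t ht => absurd (Subgroup.mem_top t) ht
  h1 := fun p hp => absurd (Subgroup.mem_top p) hp
  h2 := fun t ht => absurd (Subgroup.mem_top t) ht
  h3 := fun t ht => absurd (Subgroup.mem_top t) ht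
  h4 := fun a _ ha => absurd (Subgroup.mem_top a) ha

/-- group extensions -/
def Pc.ofExt (W : QStruct) (hneg : W.neg = 1) (hw : ∃ w : W.G, w ≠ 1) : Pc (ext W) :=
  Pc.ofT (ext W) ((MonoidHom.snd W.G (Multiplicative (ZMod 2))).ker : Subgroup (W.G × Multiplicative (ZMod 2)))
    ((1, Multiplicative.ofAdd 1) : W.G × Multiplicative (ZMod 2))
    (by
      intro h
      have h' : Multiplicative.ofAdd (1 : ZMod 2) = 1 := h
      exact absurd h' (by decide))
    (by
      rintro ⟨a, α⟩ ⟨b, β⟩ ha hb
      have ha' : α ≠ 1 := ha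
      have hb' : β ≠ 1 := hb
      show α * β = 1
      rcases two_cases α with rfl | rfl
      · exact absurd rfl ha'
      · rcases two_cases β with rfl | rfl
        · exact absurd rfl hb'
        · exact x_mul_x)
    (by
      rintro ⟨a, α⟩ ha ⟨b, β⟩ h
      have ha' : α ≠ 1 := ha
      have h' : extMap W (a, α) (b, β) = (W.zero, 1) := congrArg Subtype.val h
      rcases two_cases α with rfl | rfl
      · exact absurd rfl ha'
      · rcases two_cases β with rfl | rfl
        · rw [extMap_x_one] at h'
          have h1 : b = 1 := congrArg Prod.snd h'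
          left
          rw [h1]; rfl
        · rw [extMap_x_x] at h'
          have h1 : W.neg * a * b = 1 := congrArg Prod.snd h'
          rw [hneg, one_mul] at h1
          right
          rw [(eq_iff_mul W a b).2 h1])
    (by
      rintro ⟨a, α⟩ ha hne ⟨b, β⟩ h
      have ha' : α = 1 := ha
      subst ha'
      have h' : extMap W (a, 1) (b, β) = (W.zero, 1) := congrArg Subtype.val h
      show β = 1
      rcases two_cases β with rfl | rfl
      · rfl
      · rw [extMap_one_x] at h'
        have h1 : a = 1 := congrArg Prod.snd h'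
        exact absurd (by rw [h1]; rfl) hne)
    (by
      obtain ⟨w, hw⟩ := hw
      refine ⟨((w, 1) : W.G × Multiplicative (ZMod 2)), rfl, ?_⟩
      intro h
      exact hw (congrArg Prod.fst h))

/-- `T` is a product of pieces (as far as the relation `q = 0` is concerned) -/
def Dec (T : QStruct) : Prop :=
  ∃ (ι : Type) (_ : Fintype ι) (_ : DecidableEq ι) (C : ι → QStruct)
    (_ : ∀ i, Nonempty (Pc (C i))) (ψ : T.G ≃* ∀ i, (C i).G),
    ∀ u v, T.q u v = T.zero ↔ ∀ i, (C i).q (ψ u i) (ψ v i) = (C i).zero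

theorem Dec.single (T : QStruct) (h : Nonempty (Pc T)) : Dec T :=
  ⟨Unit, inferInstance, inferInstance, fun _ => T, fun _ => h,
    { toFun := fun a _ => a
      invFun := fun f => f ()
      left_inv := fun _ => rfl
      right_inv := fun _ => rfl
      map_mul' := fun _ _ => rfl }, fun u v => ⟨fun h _ => h, fun h => h ()⟩⟩

theorem Dec.prod {A B : QStruct} (hA : Dec A) (hB : Dec B) : Dec (QS.prod A B) := by
  obtain ⟨ι, hι, dι, C, hC, ψ, hψ⟩ := hA
  obtain ⟨ι', hι', dι', C', hC', ψ', hψ'⟩ := hB
  refine ⟨ι ⊕ ι', inferInstance, inferInstance, Sum.elim C C', ?_, ?_, ?_⟩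
  · rintro (i | i)
    · exact hC i
    · exact hC' i
  · exact
      { toFun := fun a => fun i => match i with
          | Sum.inl i => ψ a.1 i
          | Sum.inr i => ψ' a.2 i
        invFun := fun f => (ψ.symm (fun i => f (Sum.inl i)), ψ'.symm (fun i => f (Sum.inr i)))
        left_inv := fun a => Prod.ext (ψ.symm_apply_apply a.1) (ψ'.symm_apply_apply a.2)
        right_inv := fun f => by
          funext i
          rcases i with i | i
          · exact congrFun (ψ.apply_symm_apply (fun i => f (Sum.inl i))) i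
          · exact congrFun (ψ'.apply_symm_apply (fun i => f (Sum.inr i))) i
        map_mul' := fun a b => by
          funext i
          rcases i with i | i
          · exact congrFun (ψ.map_mul a.1 b.1) i
          · exact congrFun (ψ'.map_mul a.2 b.2) i }
  · rintro ⟨u, u'⟩ ⟨v, v'⟩
    constructor
    · intro h
      have h1 : A.q u v = A.zero := congrArg Prod.fst h
      have h2 : B.q u' v' = B.zero := congrArg Prod.snd h
      rintro (i | i)
      · exact (hψ u v).1 h1 i
      · exact (hψ' u' v').1 h2 i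
    · intro h
      exact Prod.ext ((hψ u v).2 fun i => h (Sum.inl i)) ((hψ' u' v').2 fun i => h (Sum.inr i))

theorem dec_of_elem {T : QStruct} (hE : ElemType T) : T.neg = 1 →
    (∀ a, (∀ b, T.q a b = T.zero) → a = 1) → Dec T := by
  induction hE with
  | L0 S h =>
    intro hneg hr
    have hs := Nat.card_eq_one_iff_unique.1 h
    haveI := hs.1
    refine ⟨Empty, inferInstance, inferInstance, fun i => i.elim, fun i => i.elim,
      { toFun := fun _ i => i.elim
        invFun := fun _ => 1
        left_inv := fun _ => Subsingleton.elim _ _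
        right_inv := fun _ => funext fun i => i.elim
        map_mul' := fun _ _ => funext fun i => i.elim }, ?_⟩
    intro u v
    refine ⟨fun _ i => i.elim, fun _ => ?_⟩
    rw [Subsingleton.elim v 1, S.q_one]
  | L10 S h h1 h2 =>
    intro hneg hr
    have hs : Subsingleton S.G := ⟨fun a b => by rw [hr a (h2 a), hr b (h2 b)]⟩
    have : Nat.card S.G = 1 := Nat.card_unique
    omega
  | L11 S h h1 h2 => exact fun hneg => absurd hneg h1
  | L1 S h h1 h2 => exact fun hneg => absurd hneg h1
  | loc S hf h h1 h2 => exact fun _ _ => Dec.single S ⟨Pc.ofL S h1 h2 h⟩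
  | prod A B h1 h2 ih1 ih2 =>
    intro hneg hr
    refine (ih1 (congrArg Prod.fst hneg) fun a ha => ?_).prod
      (ih2 (congrArg Prod.snd hneg) fun b hb => ?_)
    · have := hr ((a, 1) : A.G × B.G) (fun c => by
        refine Prod.ext (ha c.1) ?_
        show B.q 1 c.2 = B.zero
        rw [B.qs2, B.q_one])
      exact congrArg Prod.fst this
    · have := hr ((1, b) : A.G × B.G) (fun c => by
        refine Prod.ext ?_ (hb c.2)
        show A.q 1 c.1 = A.zero
        rw [A.qs2, A.q_one])
      exact congrArg Prod.snd this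
  | ext W h ih =>
    intro hneg hr
    have hn : W.neg = 1 := congrArg Prod.fst hneg
    apply Dec.single
    refine ⟨Pc.ofExt W hn ?_⟩
    by_contra hno
    push Not at hno
    have h1 := hr ((1, Multiplicative.ofAdd 1) : W.G × Multiplicative (ZMod 2)) (by
      rintro ⟨b, β⟩
      apply Subtype.ext
      show extMap W (1, Multiplicative.ofAdd 1) (b, β) = (W.zero, 1)
      have hb := hno b
      subst hb
      rcases two_cases β with rfl | rfl
      · rw [extMap_x_one, W.q_one]
      · rw [extMap_x_x, W.q_one, hn, mul_one, mul_one])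
    have h2 : Multiplicative.ofAdd (1 : ZMod 2) = 1 := congrArg Prod.snd h1
    exact absurd h2 (by decide)
  | iso S T hi h ih =>
    intro hneg hr
    obtain ⟨φ, hφ, hq⟩ := hi
    have hz : ∀ a b, S.q a b = S.zero ↔ T.q (φ a) (φ b) = T.zero := by
      intro a b
      have h1 := hq a b 1 1
      rwa [S.q_one, map_one, T.q_one] at h1
    have hn : S.neg = 1 := by
      apply φ.injective
      rw [hφ, hneg, map_one]
    obtain ⟨ι, hι, dι, C, hC, ψ, hψ⟩ := ih hn (fun a ha => by
      apply φ.injective
      rw [map_one]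
      refine hr _ fun b => ?_
      rw [← φ.apply_symm_apply b]
      exact (hz _ _).1 (ha _))
    refine ⟨ι, hι, dι, C, hC, φ.symm.trans ψ, fun u v => ?_⟩
    rw [← φ.apply_symm_apply u, ← φ.apply_symm_apply v, ← hz, hψ]
    simp

end Pool.Agent.RF66
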